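import Pool.Agent.Helper98.TA.Basic

/-!
Sheet TA (MP_7a8f48_an), row HQS: the property of the hull passes to unions of chains.
-/

open MeasureTheory Filter Topology Finset
open scoped ComplexConjugate

namespace Pool.Agent.Helper74.TA

open Pool.Agent.Helper98.TW
open Pool.Agent.Helper40.TWM (St HQ)
open Pool.Agent.Helper98.GY (JY JJY)
open Pool.Agent.Helper98.TA

theorem uf_pow {Ω : Type} [MeasurableSpace Ω] {μ : Measure Ω} {ψ : Ω → ℂ} (h : UF μ ψ) (M : ℕ) :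
    UF μ (fun x => ψ x ^ M) := by
  refine ⟨h.1.pow_const M, ?_⟩
  filter_upwards [h.2] with x hx
  rw [norm_pow, hx, one_pow]

/-- the bounded version of a function -/
noncomputable def bv {Ω : Type} (f : Ω → ℂ) : Ω → ℂ := fun x => if ‖f x‖ ≤ 1 then f x else 0

theorem bf_bv {Ω : Type} [MeasurableSpace Ω] {f : Ω → ℂ} (h : Measurable f) : BF (bv f) := by
  refine ⟨Measurable.ite (measurableSet_le h.norm measurable_const) h measurable_const, 1,
    fun x => ?_⟩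
  unfold bv
  split_ifs with hx
  · exact hx
  · simp

theorem bv_ae {Ω : Type} [MeasurableSpace Ω] {μ : Measure Ω} {f : Ω → ℂ} (h : UF μ f) :
    bv f =ᵐ[μ] f := by
  filter_upwards [h.2] with x hx
  unfold bv
  rw [if_pos (le_of_eq hx)]

theorem ce_self {Ω : Type} [MeasurableSpace Ω] {μ : Measure Ω} [IsFiniteMeasure μ] {D : SA Ω}
    {f : Ω → ℂ} (h : Lm D) (hf : AM μ D f) (hi : Integrable f μ) : μ[f|D] =ᵐ[μ] f := by
  have hs : SigmaFinite (μ.trim h) := @IsFiniteMeasure.toSigmaFinite _ _ _ (isFiniteMeasure_trim h)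
  exact condExp_of_aestronglyMeasurable' h hf hi

theorem st_HQS (hB : ST_BSP) (hL : ST_LZ) (hP : ST_PFC) : ST_HQS := by
  intro Ω _ μ _ S S' p q κ c hS hκ hne hch hc
  have hs1 : Sys μ S S' := by simpa using hS.sys 1
  have hpr : IsProbabilityMeasure κ := hκ.prob
  have hT := sys_jy hs1 hκ
  obtain ⟨D₁, h1, h2, h3⟩ := hB Ω μ S S' c hs1 hne hch (fun D hD => (hc D hD).1)
  refine ⟨D₁, h1, ?_, h2⟩
  intro ψ hψ hi M hM hcop hv
  by_contra hno
  have hnv : ∀ D ∈ c, ¬ Vi κ D (fun x => ψ x ^ M) :=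
    fun D hD hvD => hno ((hc D hD).2 ψ hψ hi M hM hcop hvD)
  have huf : UF μ (fun x => ψ x ^ M) := uf_pow hψ M
  have hufκ : UF κ (fun z => ψ z.1 ^ M) := uf_J1 hκ huf
  have hib : Inc μ bo S^[p] (fun x => ψ x ^ M) :=
    inc_iter (ia_bo hs1) hs1 huf (inc_pow hi M) p
  have hz : ∀ D ∈ c, κ[fun z => ψ z.1 ^ M|jo (B2 Ω) (J1 D)] =ᵐ[κ] 0 := by
    intro D hD
    have hinc : Inc κ (jo (B2 Ω) (J1 D)) (Prod.map S^[p] S^[q]) (fun z => ψ z.1 ^ M) := by
      refine inc_mono ?_ (inc_J1 hP hs1 hκ (ia_bo hs1).1 huf hib)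
      refine lq_of_le (le_trans (α := MeasurableSpace (Ω × Ω))
        (J1_mono (bot_le (α := MeasurableSpace Ω))) le_jo_right)
    exact (hL (Ω × Ω) κ _ _ (jo (B2 Ω) (J1 D)) (fun z => ψ z.1 ^ M) hT hκ.erg
      (ia_jo hT (ia_B2 hs1 hκ) (ia_J1 hs1 hκ (hc D hD).1)) hufκ hinc).resolve_right (hnv D hD)
  have hlm : Lm (jo (B2 Ω) (J1 D₁)) :=
    (ia_jo hT (ia_B2 hs1 hκ) (ia_J1 hs1 hκ h1)).1
  have h4 := h3 κ (bv fun z => ψ z.1 ^ M) hκ.fst (bf_bv hufκ.1)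
    (fun D hD => (condExp_congr_ae (bv_ae hufκ)).trans (hz D hD))
  have h5 : κ[fun z => ψ z.1 ^ M|jo (B2 Ω) (J1 D₁)] =ᵐ[κ] 0 :=
    (condExp_congr_ae (bv_ae hufκ)).symm.trans h4
  have hint : Integrable (fun z : Ω × Ω => ψ z.1 ^ M) κ := by
    refine Integrable.of_bound hufκ.1.aestronglyMeasurable 1 ?_
    filter_upwards [hufκ.2] with z hz
    exact le_of_eq hz
  have h6 : κ[fun z => ψ z.1 ^ M|jo (B2 Ω) (J1 D₁)] =ᵐ[κ] fun z => ψ z.1 ^ M :=
    ce_self hlm hv hint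
  have h7 : ∀ᵐ z ∂κ, False := by
    filter_upwards [h5, h6, hufκ.2] with z a b e
    rw [← b, a] at e
    simp at e
  simp only [eventually_false_iff_eq_bot, ae_eq_bot] at h7
  exact IsProbabilityMeasure.ne_zero κ h7

end Pool.Agent.Helper74.TA
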